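import Mathlib

/-! Selection principles: definitions, transfer lemmas, and the gap lemma in the square of the
Cantor space. -/

namespace Pool.Agent.MP_5f86f1_lc.Yes

open Set Filter Topology

/-- The Scheepers property of a subset, for covers by open sets of the ambient space. -/
def Sch {Y : Type} [TopologicalSpace Y] (X : Set Y) : Prop :=
  ∀ U : ℕ → Set (Set Y), (∀ n, (∀ u ∈ U n, IsOpen u) ∧ X ⊆ ⋃₀ U n) →
    ∃ F : ℕ → Set (Set Y), (∀ n, F n ⊆ U n ∧ (F n).Finite) ∧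
      ∀ G : Finset Y, (↑G : Set Y) ⊆ X → ∃ n, (↑G : Set Y) ⊆ ⋃₀ F n

/-- The Menger property of a subset, for covers by open sets of the ambient space. -/
def Men {Y : Type} [TopologicalSpace Y] (X : Set Y) : Prop :=
  ∀ U : ℕ → Set (Set Y), (∀ n, (∀ u ∈ U n, IsOpen u) ∧ X ⊆ ⋃₀ U n) →
    ∃ F : ℕ → Set (Set Y), (∀ n, F n ⊆ U n ∧ (F n).Finite) ∧ X ⊆ ⋃ n, ⋃₀ F n

theorem Sch.image {Y W : Type} [TopologicalSpace Y] [TopologicalSpace W] {X : Set Y}
    (hX : Sch X) {e : Y → W} (he : Continuous e) : Sch (e '' X) := by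
  classical
  intro U hU
  obtain ⟨F, hF, hG⟩ := hX (fun n => (fun u => e ⁻¹' u) '' U n) (fun n => ⟨by
      rintro _ ⟨u, hu, rfl⟩
      exact ((hU n).1 u hu).preimage he, by
      intro x hx
      obtain ⟨u, hu, hxu⟩ := (hU n).2 (mem_image_of_mem e hx)
      exact ⟨_, ⟨u, hu, rfl⟩, hxu⟩⟩)
  have h1 : ∀ n, ∃ F' : Set (Set W), F' ⊆ U n ∧ F'.Finite ∧ (fun u => e ⁻¹' u) '' F' = F n := by
    intro n
    obtain ⟨F', h1, h2, h3⟩ := Set.Finite.exists_subset_finite_image_eq (hF n).2 (hF n).1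
    exact ⟨F', h1, h2, h3⟩
  choose F' h1 h2 h3 using h1
  refine ⟨F', fun n => ⟨h1 n, h2 n⟩, fun G hGX => ?_⟩
  obtain ⟨G', hG1, hG2, hG3⟩ := Set.Finite.exists_subset_finite_image_eq G.finite_toSet hGX
  obtain ⟨n, hn⟩ := hG hG2.toFinset (by simpa using hG1)
  refine ⟨n, fun w hw => ?_⟩
  rw [← hG3] at hw
  obtain ⟨y, hy, rfl⟩ := hw
  obtain ⟨v, hv, hyv⟩ := hn (show y ∈ (↑hG2.toFinset : Set Y) by simpa using hy)
  rw [← h3 n] at hv
  obtain ⟨u, hu, rfl⟩ := hv
  exact ⟨u, hu, hyv⟩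

theorem Men.of_image {Y W : Type} [TopologicalSpace Y] [TopologicalSpace W] {X : Set Y}
    {e : Y → W} (he : IsInducing e) (hX : Men (e '' X)) : Men X := by
  intro U hU
  obtain ⟨F, hF, hG⟩ := hX (fun n => {u | IsOpen u ∧ e ⁻¹' u ∈ U n}) (fun n => ⟨fun u hu => hu.1, by
      rintro _ ⟨x, hx, rfl⟩
      obtain ⟨u, hu, hxu⟩ := (hU n).2 hx
      obtain ⟨v, hv, rfl⟩ := he.isOpen_iff.1 ((hU n).1 u hu)
      exact ⟨v, ⟨hv, hu⟩, hxu⟩⟩)
  refine ⟨fun n => (fun u => e ⁻¹' u) '' F n, fun n => ⟨?_, (hF n).2.image _⟩, fun x hx => ?_⟩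
  · rintro _ ⟨u, hu, rfl⟩
    exact ((hF n).1 hu).2
  · obtain ⟨n, u, hu, hxu⟩ := mem_iUnion.1 (hG (mem_image_of_mem e hx))
    exact mem_iUnion.2 ⟨n, _, ⟨u, hu, rfl⟩, hxu⟩

/-- The Cantor space. -/
abbrev C := ℕ → Bool

/-- The square of the Cantor space embeds in the line. -/
theorem exists_emb : ∃ e : C × C → ℝ, IsInducing e := by
  obtain ⟨f, -, hf, hinj⟩ := (isClosed_univ (X := ℝ)).exists_nat_bool_injection_of_not_countable
    (by rw [countable_univ_iff]; exact not_countable)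
  let ι : C × C → C := fun z n => if n % 2 = 0 then z.1 (n / 2) else z.2 (n / 2)
  have hι : Continuous ι := by
    refine continuous_pi fun n => ?_
    by_cases h : n % 2 = 0
    · simp only [ι, h, if_true]; fun_prop
    · simp only [ι, h, if_false]; fun_prop
  have hιi : Function.Injective ι := by
    intro z w h
    refine Prod.ext (funext fun n => ?_) (funext fun n => ?_)
    · have := congrFun h (2 * n)
      simpa [ι] using this
    · have := congrFun h (2 * n + 1)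
      have h1 : (2 * n + 1) % 2 = 1 := by omega
      have h2 : (2 * n + 1) / 2 = n := by omega
      simpa [ι, h1, h2] using this
  exact ⟨f ∘ ι, ((hf.comp hι).isClosedEmbedding (hinj.comp hιi)).isInducing⟩

/-- Transfer from the square of the Cantor space to the line. -/
theorem transfer {T : Set (C × C)} (h1 : Sch T) (h2 : ¬ Men (T ×ˢ T)) :
    ∃ X : Set ℝ, Sch X ∧ ¬ Men (X ×ˢ X) := by
  obtain ⟨e, he⟩ := exists_emb
  refine ⟨e '' T, h1.image he.continuous, fun h => h2 ?_⟩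
  rw [prod_image_image_eq] at h
  exact Men.of_image (he.prodMap he) h

/-- `x` is empty on the interval `[m, M)`. -/
def Gap (x : C) (m M : ℕ) : Prop := ∀ j, m ≤ j → j < M → x j = false

/-- `x` is full on the interval `[m, M)`. -/
def Full (x : C) (m M : ℕ) : Prop := ∀ j, m ≤ j → j < M → x j = true

/-- Both tracks are empty from `m` on. -/
def Fn (m : ℕ) : Set (C × C) := {z | ∀ j, m ≤ j → z.1 j = false ∧ z.2 j = false}

theorem isClosed_gap (m M : ℕ) : IsClosed {z : C × C | Gap z.1 m M ∧ Gap z.2 m M} := by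
  have h1 : ∀ (π : C × C → C), Continuous π → IsClosed {z : C × C | Gap (π z) m M} := by
    intro π hπ
    simp only [Gap, ofPred_forall]
    refine isClosed_iInter fun j => isClosed_iInter fun _ => isClosed_iInter fun _ => ?_
    exact isClosed_eq ((continuous_apply j).comp hπ) continuous_const
  exact (h1 _ continuous_fst).inter (h1 _ continuous_snd)

theorem isClosed_Fn (m : ℕ) : IsClosed (Fn m) := by
  simp only [Fn, ofPred_forall]
  refine isClosed_iInter fun j => isClosed_iInter fun _ => ?_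
  exact (isClosed_eq ((continuous_apply j).comp continuous_fst) continuous_const).inter
    (isClosed_eq ((continuous_apply j).comp continuous_snd) continuous_const)

theorem Gap.mono {x : C} {m M M' : ℕ} (h : Gap x m M) (hM : M' ≤ M) : Gap x m M' :=
  fun j h1 h2 => h j h1 (h2.trans_le hM)

theorem Full.mono {x : C} {m M M' : ℕ} (h : Full x m M) (hM : M' ≤ M) : Full x m M' :=
  fun j h1 h2 => h j h1 (h2.trans_le hM)

theorem gap_lemma {V : Set (C × C)} (hV : IsOpen V) {m : ℕ} (h : Fn m ⊆ V) :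
    ∃ M, ∀ z : C × C, Gap z.1 m M → Gap z.2 m M → z ∈ V := by
  obtain ⟨M, hM⟩ := exists_subset_nhds_of_compactSpace
    (V := fun M => {z : C × C | Gap z.1 m M ∧ Gap z.2 m M}) (U := V)
    (fun a b => ⟨max a b, fun z hz => ⟨hz.1.mono (le_max_left _ _), hz.2.mono (le_max_left _ _)⟩,
      fun z hz => ⟨hz.1.mono (le_max_right _ _), hz.2.mono (le_max_right _ _)⟩⟩)
    (fun M => isClosed_gap m M) (by
      intro z hz
      refine hV.mem_nhds (h fun j hj => ?_)
      have := mem_iInter.1 hz (j + 1)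
      exact ⟨this.1 j hj (Nat.lt_succ_self j), this.2 j hj (Nat.lt_succ_self j)⟩)
  exact ⟨M, fun z h1 h2 => hM ⟨h1, h2⟩⟩

/-- A combinatorial sufficient condition for the Scheepers property. -/
theorem sch_of_Q {T : Set (C × C)} (hFn : ∀ m, Fn m ⊆ T)
    (hQ : ∀ (h : ℕ → ℕ) (f : C × C → ℕ → ℕ), ∃ g : ℕ → ℕ, ∀ G : Finset (C × C),
      (↑G : Set (C × C)) ⊆ T → ∃ n, ∀ z ∈ G,
        f z n ≤ g n ∨ ∃ m, n ≤ m ∧ m ≤ g n ∧ Gap z.1 m (h m) ∧ Gap z.2 m (h m)) : Sch T := by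
  classical
  intro U hU
  have h1 : ∀ n, ∃ u : ℕ → Set (C × C), (∀ k, u k ∈ U n) ∧ T ⊆ ⋃ k, u k := by
    intro n
    obtain ⟨S, hS1, hS2, hS3⟩ := TopologicalSpace.isOpen_sUnion_countable (U n) (hU n).1
    have hne : S.Nonempty := by
      have h0 : ((fun _ => false, fun _ => false) : C × C) ∈ ⋃₀ S := by
        rw [hS3]; exact (hU n).2 (hFn 0 fun j _ => ⟨rfl, rfl⟩)
      obtain ⟨s, hs, -⟩ := h0
      exact ⟨s, hs⟩
    obtain ⟨u, hu⟩ := hS1.exists_eq_range hne
    refine ⟨u, fun k => hS2 (hu ▸ mem_range_self k), ?_⟩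
    rw [← sUnion_range, ← hu, hS3]
    exact (hU n).2
  choose u hu1 hu2 using h1
  let O : ℕ → ℕ → Set (C × C) := fun n k => ⋃ j ∈ Iic k, u n j
  have hO : ∀ n k, IsOpen (O n k) := fun n k =>
    isOpen_biUnion fun j _ => (hU n).1 _ (hu1 n j)
  have hOm : ∀ n, Monotone (O n) := fun n a b hab =>
    biUnion_subset_biUnion_left (Iic_subset_Iic.2 hab)
  have hTO : ∀ n, T ⊆ ⋃ k, O n k := by
    intro n z hz
    obtain ⟨k, hk⟩ := mem_iUnion.1 (hu2 n hz)
    exact mem_iUnion.2 ⟨k, mem_biUnion (mem_Iic.2 le_rfl) hk⟩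
  have h2 : ∀ n m, ∃ k M, ∀ z : C × C, Gap z.1 m M → Gap z.2 m M → z ∈ O n k := by
    intro n m
    obtain ⟨k, hk⟩ := (isClosed_Fn m).isCompact.elim_directed_cover (O n) (hO n)
      ((hFn m).trans (hTO n)) (hOm n).directed_le
    obtain ⟨M, hM⟩ := gap_lemma (hO n k) hk
    exact ⟨k, M, hM⟩
  choose k M hkM using h2
  have h3 : ∀ (z : C × C) n, ∃ k, z ∈ T → z ∈ O n k := by
    intro z n
    by_cases hz : z ∈ T
    · obtain ⟨k, hk⟩ := mem_iUnion.1 (hTO n hz)
      exact ⟨k, fun _ => hk⟩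
    · exact ⟨0, fun h => absurd h hz⟩
  choose f hf using h3
  obtain ⟨g, hg⟩ := hQ (fun m => (Finset.range (m + 1)).sup fun n => M n m) f
  let g' : ℕ → ℕ := fun n => max (g n) ((Finset.range (g n + 1)).sup fun m => k n m)
  refine ⟨fun n => u n '' Iic (g' n), fun n => ⟨?_, (finite_Iic _).image _⟩, fun G hG => ?_⟩
  · rintro _ ⟨j, -, rfl⟩
    exact hu1 n j
  · obtain ⟨n, hn⟩ := hg G hG
    refine ⟨n, fun z hz => ?_⟩
    rw [sUnion_image]
    change z ∈ O n (g' n)
    rcases hn z hz with h | ⟨m, h1, h2, h3, h4⟩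
    · exact hOm n (h.trans (le_max_left _ _)) (hf z n (hG hz))
    · have hM : M n m ≤ (Finset.range (m + 1)).sup fun n => M n m :=
        Finset.le_sup (f := fun n => M n m) (Finset.mem_range.2 (Nat.lt_succ_of_le h1))
      have hk : k n m ≤ g' n := le_trans
        (Finset.le_sup (f := fun m => k n m) (Finset.mem_range.2 (Nat.lt_succ_of_le h2)))
        (le_max_right _ _)
      exact hOm n hk (hkM n m z (h3.mono hM) (h4.mono hM))

end Pool.Agent.MP_5f86f1_lc.Yes
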