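import Mathlib
import Pool.Agent.MP_5f86f1_lc.Yes.Top

/-! The core construction: from a family `x` of infinite, co-infinite subsets of the natural numbers
with a combinatorial property and a dominating family on the same index set, a Scheepers set whose
square is not Menger. -/

namespace Pool.Agent.MP_5f86f1_lc.Yes

open Set Filter Topology

/-- The combinatorial property of the family `x`. -/
def PropQ {I : Type} (x : I → C) : Prop :=
  ∀ (h : ℕ → ℕ) (f : I → ℕ → ℕ) (f' : C → ℕ → ℕ), ∃ g : ℕ → ℕ, ∀ (E : Finset I) (N : ℕ),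
    ∃ n, N ≤ n ∧ ∀ i ∈ E,
      (f i n ≤ g n ∨ ∃ m, n ≤ m ∧ m ≤ g n ∧ Gap (x i) m (h m)) ∧
      (f' (x i) n ≤ g n ∨ ∃ m, n ≤ m ∧ m ≤ g n ∧ Full (x i) m (h m))

/-- At least `n + 1` elements below `k`. -/
def Many (y : C) (n k : ℕ) : Prop :=
  ∃ F : Finset ℕ, F.card = n + 1 ∧ ∀ m ∈ F, m < k ∧ y m = true

theorem many_of_inf {y : C} (hy : ∀ N, ∃ n, N ≤ n ∧ y n = true) (n : ℕ) : ∃ k, Many y n k := by
  have hinf : {m | y m = true}.Infinite := by
    refine Set.infinite_of_not_bddAbove ?_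
    rintro ⟨b, hb⟩
    obtain ⟨m, hm, h⟩ := hy (b + 1)
    have := hb h
    omega
  obtain ⟨F, hF, hc⟩ := hinf.exists_subset_card_eq (n + 1)
  refine ⟨F.sup id + 1, F, hc, fun m hm => ⟨?_, hF hm⟩⟩
  exact Nat.lt_succ_of_le (Finset.le_sup (f := id) hm)

theorem Many.mono {y : C} {n k k' : ℕ} (h : Many y n k) (hk : k ≤ k') : Many y n k' := by
  obtain ⟨F, h1, h2⟩ := h
  exact ⟨F, h1, fun m hm => ⟨(h2 m hm).1.trans_le hk, (h2 m hm).2⟩⟩

theorem isOpen_many (n k : ℕ) : IsOpen {y : C | Many y n k} := by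
  have : {y : C | Many y n k} = ⋃ F : Finset ℕ, ⋃ _ : F.card = n + 1, ⋂ m ∈ F,
      {y : C | m < k ∧ y m = true} := by
    ext y; simp [Many]
  rw [this]
  refine isOpen_iUnion fun F => isOpen_iUnion fun _ => isOpen_biInter_finset fun m _ => ?_
  refine IsOpen.inter isOpen_const ?_
  exact (isOpen_discrete ({true} : Set Bool)).preimage (continuous_apply (A := fun _ : ℕ => Bool) m)

/-- A sparse infinite subset of an infinite set. -/
theorem exists_sparse {x : C} (hx : ∀ N, ∃ n, N ≤ n ∧ x n = true) (φ : ℕ → ℕ) :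
    ∃ d : C, (∀ j, d j = true → x j = true) ∧ (∀ N, ∃ n, N ≤ n ∧ d n = true) ∧
      ∀ n, ¬ Many d n (φ n) := by
  classical
  choose nx h1 h2 using hx
  let s : ℕ → ℕ := fun n => Nat.rec (nx (φ 0)) (fun k a => nx (max (a + 1) (φ (k + 1)))) n
  have hs : ∀ k, s (k + 1) = nx (max (s k + 1) (φ (k + 1))) := fun k => rfl
  have hmono : StrictMono s := strictMono_nat_of_lt_succ fun k => by
    have := h1 (max (s k + 1) (φ (k + 1)))
    rw [hs]; omega
  have hφ : ∀ k, φ k ≤ s k := by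
    intro k
    cases k with
    | zero => exact h1 _
    | succ k =>
      have := h1 (max (s k + 1) (φ (k + 1)))
      rw [hs]; omega
  have hxs : ∀ k, x (s k) = true := by
    intro k
    cases k with
    | zero => exact h2 _
    | succ k => exact h2 _
  refine ⟨fun j => decide (j ∈ range s), ?_, ?_, ?_⟩
  · intro j hj
    obtain ⟨k, rfl⟩ := of_decide_eq_true hj
    exact hxs k
  · intro N
    exact ⟨s N, hmono.id_le N, by simp⟩
  · rintro n ⟨F, hF, h⟩
    have hsub : F ⊆ (Finset.range n).image s := by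
      intro m hm
      obtain ⟨h3, h4⟩ := h m hm
      obtain ⟨k, rfl⟩ := of_decide_eq_true h4
      refine Finset.mem_image_of_mem _ (Finset.mem_range.2 ?_)
      exact hmono.lt_iff_lt.1 (h3.trans_le (hφ n))
    have := (Finset.card_le_card hsub).trans Finset.card_image_le
    simp at this
    omega

/-- Complement of a point of the Cantor space. -/
def cpl (x : C) : C := fun n => !x n

theorem core {I : Type} (x : I → C) (hinf : ∀ i N, ∃ n, N ≤ n ∧ x i n = true)
    (hco : ∀ i N, ∃ n, N ≤ n ∧ x i n = false) (φ : I → ℕ → ℕ) (hφ : ∀ g : ℕ → ℕ, ∃ i, ∀ n, g n ≤ φ i n)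
    (hQ : PropQ x) : ∃ X : Set ℝ, Sch X ∧ ¬ Men (X ×ˢ X) := by
  classical
  choose d hd1 hd2 hd3 using fun i => exists_sparse (hinf i) (φ i)
  let T : Set (C × C) := (⋃ m, Fn m) ∪ (range (fun i => (d i, x i)) ∪
    range (fun i => (cpl (x i), cpl (x i))))
  refine transfer (T := T) (sch_of_Q (fun m z hz => Or.inl (mem_iUnion.2 ⟨m, hz⟩)) ?_) ?_
  · intro h f
    obtain ⟨g, hg⟩ := hQ h (fun i => f (d i, x i)) (fun y => f (cpl y, cpl y))
    refine ⟨fun n => max (g n) n, fun G hG => ?_⟩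
    have h1 : ∀ z ∈ G, ∃ (E : Finset I) (N : ℕ), z ∈ Fn N ∨ ∃ i ∈ E,
        z = (d i, x i) ∨ z = (cpl (x i), cpl (x i)) := by
      intro z hz
      rcases hG hz with h | ⟨i, hi⟩ | ⟨i, hi⟩
      · obtain ⟨m, hm⟩ := mem_iUnion.1 h
        exact ⟨∅, m, Or.inl hm⟩
      · exact ⟨{i}, 0, Or.inr ⟨i, Finset.mem_singleton_self i, Or.inl hi.symm⟩⟩
      · exact ⟨{i}, 0, Or.inr ⟨i, Finset.mem_singleton_self i, Or.inr hi.symm⟩⟩
    choose! E N hEN using h1
    obtain ⟨n, hn, h2⟩ := hg (G.biUnion E) (G.sup N)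
    refine ⟨n, fun z hz => ?_⟩
    rcases hEN z hz with h | ⟨i, hi, h⟩
    · have hN : N z ≤ n := (Finset.le_sup (f := N) hz).trans hn
      exact Or.inr ⟨n, le_rfl, le_max_right _ _, fun j hj _ => (h j (hN.trans hj)).1,
        fun j hj _ => (h j (hN.trans hj)).2⟩
    · obtain ⟨h3, h4⟩ := h2 i (Finset.mem_biUnion.2 ⟨z, hz, hi⟩)
      rcases h with rfl | rfl
      · rcases h3 with h3 | ⟨m, h5, h6, h7⟩
        · exact Or.inl (h3.trans (le_max_left _ _))
        · refine Or.inr ⟨m, h5, h6.trans (le_max_left _ _), fun j a b => ?_, h7⟩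
          have := h7 j a b
          by_contra hc
          have := hd1 i j (by simpa using hc)
          simp_all
      · rcases h4 with h4 | ⟨m, h5, h6, h7⟩
        · exact Or.inl (h4.trans (le_max_left _ _))
        · have : Gap (cpl (x i)) m (h m) := fun j a b => by simp [cpl, h7 j a b]
          exact Or.inr ⟨m, h5, h6.trans (le_max_left _ _), this, this⟩
  · intro hM
    let W : ℕ → ℕ → Set ((C × C) × (C × C)) := fun n k =>
      {p | ∃ j, p.1.2 j = p.2.2 j} ∪ {p | Many p.2.1 n k}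
    have hWo : ∀ n k, IsOpen (W n k) := by
      intro n k
      refine IsOpen.union ?_ ((isOpen_many n k).preimage (by fun_prop))
      simp only [ofPred_exists]
      refine isOpen_iUnion fun j => ?_
      have hc : Continuous fun p : (C × C) × (C × C) => (p.1.2 j, p.2.2 j) := by fun_prop
      exact (isOpen_discrete {q : Bool × Bool | q.1 = q.2}).preimage hc
    have hco2 : ∀ z ∈ T, ∀ N, ∃ n, N ≤ n ∧ z.2 n = false := by
      rintro z (h | ⟨i, rfl⟩ | ⟨i, rfl⟩) N
      · obtain ⟨m, hm⟩ := mem_iUnion.1 h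
        exact ⟨max N m, le_max_left _ _, (hm _ (le_max_right _ _)).2⟩
      · exact hco i N
      · obtain ⟨n, h1, h2⟩ := hinf i N
        exact ⟨n, h1, by simp [cpl, h2]⟩
    have hcov : ∀ n, T ×ˢ T ⊆ ⋃₀ range (W n) := by
      rintro n ⟨a, b⟩ ⟨ha, hb⟩
      rw [sUnion_range, mem_iUnion]
      rcases hb with h | ⟨i, rfl⟩ | ⟨i, rfl⟩
      · obtain ⟨m, hm⟩ := mem_iUnion.1 h
        obtain ⟨j, h1, h2⟩ := hco2 a ha m
        exact ⟨0, Or.inl ⟨j, h2.trans (hm j h1).2.symm⟩⟩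
      · obtain ⟨k, hk⟩ := many_of_inf (hd2 i) n
        exact ⟨k, Or.inr hk⟩
      · obtain ⟨k, hk⟩ := many_of_inf (y := cpl (x i)) (fun N => by
          obtain ⟨m, h1, h2⟩ := hco i N
          exact ⟨m, h1, by simp [cpl, h2]⟩) n
        exact ⟨k, Or.inr hk⟩
    obtain ⟨F, hF, hc⟩ := hM (fun n => range (W n)) (fun n => ⟨by
      rintro _ ⟨k, rfl⟩; exact hWo n k, hcov n⟩)
    have h1 : ∀ n, ∃ k, ⋃₀ F n ⊆ W n k := by
      intro n
      have h2 : F n ⊆ W n '' univ := by simpa using (hF n).1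
      obtain ⟨S, -, hS2, hS3⟩ := Set.Finite.exists_subset_finite_image_eq (hF n).2 h2
      obtain ⟨k, hk⟩ := hS2.bddAbove
      refine ⟨k, ?_⟩
      rw [← hS3]
      rintro p ⟨_, ⟨j, hj, rfl⟩, hp⟩
      rcases hp with hp | hp
      · exact Or.inl hp
      · exact Or.inr (Many.mono hp (hk hj))
    choose g hg using h1
    obtain ⟨i, hi⟩ := hφ g
    have hmem : (((cpl (x i), cpl (x i)), (d i, x i)) : (C × C) × (C × C)) ∈ T ×ˢ T :=
      ⟨Or.inr (Or.inr ⟨i, rfl⟩), Or.inr (Or.inl ⟨i, rfl⟩)⟩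
    obtain ⟨n, hn⟩ := mem_iUnion.1 (hc hmem)
    rcases hg n hn with ⟨j, hj⟩ | h
    · simp [cpl] at hj
    · exact hd3 i n (Many.mono h (hi n))

end Pool.Agent.MP_5f86f1_lc.Yes
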