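import Mathlib
import Pool.Agent.MP_5f86f1_lc.Yes.Core

/-! The dominating number, small families of functions, and the case of a short cofinal set. -/

namespace Pool.Agent.MP_5f86f1_lc.Yes

open Set Filter Topology Cardinal

/-- A dominating family. -/
def Dom (D : Set (ℕ → ℕ)) : Prop := ∀ f : ℕ → ℕ, ∃ g ∈ D, ∀ᶠ n in atTop, f n ≤ g n

/-- Every family of fewer than `κ` functions is not finitely dominating. -/
def ND (κ : Cardinal.{0}) : Prop :=
  ∀ (ι : Type) (a : ι → ℕ → ℕ), Cardinal.mk ι < κ →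
    ∃ g : ℕ → ℕ, ∀ (E : Finset ι) (N : ℕ), ∃ n, N ≤ n ∧ ∀ i ∈ E, a i n ≤ g n

theorem mk_finset_lt {ι : Type} {κ : Cardinal.{0}} (hκ : ℵ₀ < κ) (h : Cardinal.mk ι < κ) :
    Cardinal.mk (Finset ι) < κ := by
  cases finite_or_infinite ι
  · exact mk_le_aleph0.trans_lt hκ
  · rwa [mk_finset_of_infinite]

theorem aleph0_lt_of_dom {D : Set (ℕ → ℕ)} (hD : Dom D) : ℵ₀ < Cardinal.mk D := by
  by_contra hc
  have hc' : D.Countable := le_aleph0_iff_set_countable.1 (not_lt.1 hc)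
  obtain ⟨g0, hg0, -⟩ := hD (fun _ => 0)
  obtain ⟨u, rfl⟩ := hc'.exists_eq_range ⟨g0, hg0⟩
  obtain ⟨_, ⟨k, rfl⟩, hk⟩ := hD (fun n => ((Finset.range (n + 1)).sup fun k => u k n) + 1)
  obtain ⟨n, h1, h2⟩ := (hk.and (eventually_ge_atTop k)).exists
  have : u k n ≤ (Finset.range (n + 1)).sup fun k => u k n :=
    Finset.le_sup (f := fun k => u k n) (Finset.mem_range.2 (Nat.lt_succ_of_le h2))
  omega

theorem nd_of_isLeast {κ : Cardinal.{0}}
    (hκ : IsLeast {c : Cardinal.{0} | ∃ D : Set (ℕ → ℕ), Dom D ∧ Cardinal.mk D = c} κ) :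
    ℵ₀ < κ ∧ ND κ := by
  have h0 : ℵ₀ < κ := by
    obtain ⟨D, hD, rfl⟩ := hκ.1
    exact aleph0_lt_of_dom hD
  refine ⟨h0, fun ι a hι => ?_⟩
  let b : Finset ι → ℕ → ℕ := fun E n => E.sup fun i => a i n
  have hb : ¬ Dom (range b) := fun h =>
    (mk_range_le.trans_lt (mk_finset_lt h0 hι)).not_ge (hκ.2 ⟨_, h, rfl⟩)
  simp only [Dom, not_forall, not_exists, not_and] at hb
  obtain ⟨g, hg⟩ := hb
  refine ⟨g, fun E N => ?_⟩
  have h1 := hg (b E) (mem_range_self E)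
  rw [not_eventually] at h1
  obtain ⟨n, h2, h3⟩ := (h1.and_eventually (eventually_ge_atTop N)).exists
  refine ⟨n, h3, fun i hi => ?_⟩
  have : a i n ≤ b E n := Finset.le_sup (f := fun i => a i n) hi
  omega

theorem exists_phi {I : Type} {D : Set (ℕ → ℕ)} (hD : Dom D) (hI : Cardinal.mk I = Cardinal.mk D) :
    ∃ φ : I → ℕ → ℕ, (∀ g : ℕ → ℕ, ∃ i, ∀ n, g n ≤ φ i n) ∧ ∀ i n, n < φ i n := by
  have h0 := aleph0_lt_of_dom hD
  have h1 : Cardinal.mk I = Cardinal.mk (D × ℕ) := by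
    rw [hI, mk_prod, lift_id, lift_id, mk_nat, mul_eq_left h0.le h0.le aleph0_ne_zero]
  obtain ⟨e⟩ := Cardinal.eq.1 h1
  refine ⟨fun i n => (e i).1.1 n + (e i).2 + n + 1, fun g => ?_, fun i n => by beta_reduce; omega⟩
  obtain ⟨b, hb, h⟩ := hD g
  obtain ⟨N, hN⟩ := eventually_atTop.1 h
  refine ⟨e.symm (⟨b, hb⟩, (Finset.range N).sup g), fun n => ?_⟩
  simp only [Equiv.apply_symm_apply]
  by_cases hn : N ≤ n
  · have := hN n hn
    omega
  · have : g n ≤ (Finset.range N).sup g := Finset.le_sup (Finset.mem_range.2 (by omega))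
    omega

/-- An infinite, co-infinite set with infinitely many gaps for each member of a small family. -/
theorem exists_gappy {κ : Cardinal.{0}} (hND : ND κ) {ι : Type} (a : ι → ℕ → ℕ)
    (hι : Cardinal.mk ι < κ) :
    ∃ y : C, (∀ N, ∃ n, N ≤ n ∧ y n = true) ∧ (∀ N, ∃ n, N ≤ n ∧ y n = false) ∧
      ∀ i N, ∃ m, N ≤ m ∧ Gap y m (a i m) := by
  classical
  obtain ⟨g, hg⟩ := hND ι (fun i n => (Finset.range (a i n + 1)).sup (a i)) hι
  let G : ℕ → ℕ := fun t => (Finset.range (t + 1)).sup g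
  let s : ℕ → ℕ := fun n => Nat.rec 0 (fun _ t => G t + t + 2) n
  have hs : ∀ k, s (k + 1) = G (s k) + s k + 2 := fun k => rfl
  have hmono : StrictMono s := strictMono_nat_of_lt_succ fun k => by rw [hs]; omega
  refine ⟨fun j => decide (j ∈ range s), fun N => ⟨s N, hmono.id_le N, by simp⟩,
    fun N => ⟨s N + 1, (hmono.id_le N).trans (Nat.le_succ _), ?_⟩, fun i N => ?_⟩
  · simp only [decide_eq_false_iff_not]
    rintro ⟨k, hk⟩
    have h1 : N < k := hmono.lt_iff_lt.1 (by omega)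
    have h2 := hmono.monotone (Nat.succ_le_of_lt h1)
    rw [Nat.succ_eq_add_one, hs] at h2
    omega
  · by_contra hc
    have h1 : ∀ m, N ≤ m → ∃ k, m ≤ s k ∧ s k < a i m := by
      intro m hm
      by_contra h
      refine hc ⟨m, hm, fun j h1 h2 => ?_⟩
      simp only [decide_eq_false_iff_not]
      rintro ⟨k, rfl⟩
      exact h ⟨k, h1, h2⟩
    obtain ⟨n, hn, h2⟩ := hg {i} N
    have h3 := h2 i (Finset.mem_singleton_self i)
    obtain ⟨k, h4, h5⟩ := h1 n hn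
    obtain ⟨k', h6, h7⟩ := h1 (s k + 1) (by omega)
    have h8 : k < k' := hmono.lt_iff_lt.1 (by omega)
    have h9 := hmono.monotone (Nat.succ_le_of_lt h8)
    rw [Nat.succ_eq_add_one, hs] at h9
    have h10 : a i (s k + 1) ≤ (Finset.range (a i n + 1)).sup (a i) :=
      Finset.le_sup (Finset.mem_range.2 (by omega))
    have h11 : g n ≤ G (s k) := Finset.le_sup (f := g) (Finset.mem_range.2 (by omega))
    omega

/-- The case of a cofinal set of size less than `κ`. -/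
theorem sing {I : Type} [LinearOrder I] {κ : Cardinal.{0}} (hκ : ℵ₀ < κ) (hND : ND κ)
    (hI : ∀ i : I, Cardinal.mk (Iic i) < κ) (φ : I → ℕ → ℕ)
    (hφ : ∀ g : ℕ → ℕ, ∃ i, ∀ n, g n ≤ φ i n) (J : Set I) (hJ : IsCofinal J)
    (hJκ : Cardinal.mk J < κ) :
    ∃ x : I → C, (∀ i N, ∃ n, N ≤ n ∧ x i n = true) ∧ (∀ i N, ∃ n, N ≤ n ∧ x i n = false) ∧
      PropQ x := by
  classical
  choose y hy1 hy2 hy3 using fun j : I => exists_gappy hND (fun ξ : Iic j => φ ξ.1) (hI j)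
  choose c hc1 hc2 using hJ
  refine ⟨fun i => y (c i), fun i => hy1 _, fun i => hy2 _, fun h f f' => ?_⟩
  obtain ⟨β, hβ⟩ := hφ h
  have h1 : ∀ (j : I) (n : ℕ), ∃ m, β ≤ j → n ≤ m ∧ Gap (y j) m (h m) := by
    intro j n
    by_cases hj : β ≤ j
    · obtain ⟨m, h1, h2⟩ := hy3 j ⟨β, hj⟩ n
      exact ⟨m, fun _ => ⟨h1, h2.mono (hβ m)⟩⟩
    · exact ⟨0, fun h => absurd h hj⟩
  choose τ hτ using h1
  obtain ⟨g, hg⟩ := hND (Iic β ⊕ J)
    (Sum.elim (fun i => f i.1) (fun j n => max (f' (y j.1) n) (τ j.1 n)))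
    (by rw [mk_sum, lift_id, lift_id]; exact add_lt_of_lt hκ.le (hI β) hJκ)
  refine ⟨g, fun E N => ?_⟩
  obtain ⟨n, hn, h2⟩ := hg ((E.subtype (· ∈ Iic β)).disjSum
    (E.image fun i => (⟨c i, hc1 i⟩ : J))) N
  refine ⟨n, hn, fun i hi => ?_⟩
  have h3 := h2 (Sum.inr ⟨c i, hc1 i⟩) (Finset.inr_mem_disjSum.2 (Finset.mem_image_of_mem _ hi))
  simp only [Sum.elim_inr, max_le_iff] at h3
  refine ⟨?_, Or.inl h3.1⟩
  by_cases hiβ : i ≤ β
  · exact Or.inl (h2 (Sum.inl ⟨i, hiβ⟩) (Finset.inl_mem_disjSum.2 (Finset.mem_subtype.2 hi)))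
  · obtain ⟨h4, h5⟩ := hτ (c i) n ((not_le.1 hiβ).le.trans (hc2 i))
    exact Or.inr ⟨_, h4, h3.2, h5⟩

end Pool.Agent.MP_5f86f1_lc.Yes
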