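import Mathlib
import Pool.Agent.MP_5f86f1_lc.Yes.Sing

/-! The case where small sets of indices are bounded and small families of residual sets meet. -/

namespace Pool.Agent.MP_5f86f1_lc.Yes

open Set Filter Topology Cardinal

theorem exists_rec {I X : Type} [LinearOrder I] [WellFoundedLT I] [Inhabited X]
    (P : I → (I → X) → X → Prop)
    (hloc : ∀ α x x', (∀ γ, γ < α → x γ = x' γ) → ∀ y, P α x y → P α x' y)
    (hex : ∀ α x, ∃ y, P α x y) : ∃ x : I → X, ∀ α, P α x (x α) := by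
  classical
  choose F hF using hex
  let x : I → X := (wellFounded_lt (α := I)).fix
    fun α r => F α fun γ => if h : γ < α then r γ h else default
  refine ⟨x, fun α => ?_⟩
  have h1 : x α = F α fun γ => if γ < α then x γ else default := by
    simp only [x]
    rw [WellFounded.fix_eq]
    simp only [dite_eq_ite]
  rw [h1]
  exact hloc α _ _ (fun γ hγ => if_pos hγ) _ (hF α _)

/-- Empty on `[n, h n)` and full on `[h n, h (h n))`. -/
def Good (y : C) (h : ℕ → ℕ) (n : ℕ) : Prop := Gap y n (h n) ∧ Full y (h n) (h (h n))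

/-- Holds for infinitely many numbers. -/
def Inf (A : ℕ → Prop) : Prop := ∀ N, ∃ n, N ≤ n ∧ A n

theorem isOpen_good (h : ℕ → ℕ) (n : ℕ) : IsOpen {y : C | Good y h n} := by
  have h1 : ∀ (a b : ℕ) (v : Bool), IsOpen {y : C | ∀ j, a ≤ j → j < b → y j = v} := by
    intro a b v
    have : {y : C | ∀ j, a ≤ j → j < b → y j = v} = ⋂ j ∈ Finset.Ico a b, {y : C | y j = v} := by
      ext y; simp
    rw [this]
    exact isOpen_biInter_finset fun j _ =>
      (isOpen_discrete ({v} : Set Bool)).preimage (continuous_apply (A := fun _ : ℕ => Bool) j)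
  exact (h1 _ _ false).inter (h1 _ _ true)

theorem residual_good {A : ℕ → Prop} (hA : Inf A) {h : ℕ → ℕ} (hh : ∀ n, n ≤ h n) :
    {y : C | Inf fun n => A n ∧ Good y h n} ∈ residual C := by
  simp only [Inf, ofPred_forall]
  refine countable_iInter_mem.2 fun N => residual_of_dense_open ?_ ?_
  · simp only [ofPred_exists]
    refine isOpen_iUnion fun n => ?_
    exact isOpen_const.inter (isOpen_const.inter (isOpen_good h n))
  · intro y0
    choose nx h1 h2 using hA
    let yM : ℕ → C := fun M j =>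
      if j < nx (max N M) then y0 j else if j < h (nx (max N M)) then false else true
    refine mem_closure_of_tendsto (f := yM) (b := atTop) ?_ (Eventually.of_forall fun M => ?_)
    · refine tendsto_pi_nhds.2 fun j => tendsto_const_nhds.congr' ?_
      filter_upwards [eventually_gt_atTop j] with M hM
      have := h1 (max N M)
      simp only [yM]
      rw [if_pos (by omega)]
    · refine ⟨nx (max N M), (le_max_left _ _).trans (h1 _), h2 _, fun j a b => ?_, fun j a b => ?_⟩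
      · simp only [yM]
        rw [if_neg (by omega), if_pos b]
      · have := hh (nx (max N M))
        simp only [yM]
        rw [if_neg (by omega), if_neg (by omega)]

theorem reg {I : Type} [LinearOrder I] [WellFoundedLT I] {κ : Cardinal.{0}} (hκ : ℵ₀ < κ)
    (hND : ND κ) (hI : ∀ i : I, Cardinal.mk (Iic i) < κ) (φ : I → ℕ → ℕ)
    (hφ : ∀ g : ℕ → ℕ, ∃ i, ∀ n, g n ≤ φ i n) (hφ1 : ∀ i n, n < φ i n)
    (hb : ∀ J : Set I, Cardinal.mk J < κ → ∃ i, ∀ j ∈ J, j < i)
    (hB : ∀ (ι : Type) (R : ι → Set C), Cardinal.mk ι < κ → (∀ i, R i ∈ residual C) →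
      ∃ y, ∀ i, y ∈ R i) :
    ∃ x : I → C, (∀ i N, ∃ n, N ≤ n ∧ x i n = true) ∧ (∀ i N, ∃ n, N ≤ n ∧ x i n = false) ∧
      PropQ x := by
  classical
  choose gd hgd using fun δ : I => hND (Iic δ) (fun ξ => φ ξ.1) (hI δ)
  let A : (I → C) → I → I → Finset I → Finset I → ℕ → Prop := fun x β δ Ξ F n =>
    (∀ ξ ∈ Ξ, φ ξ n ≤ gd δ n) ∧ ∀ γ ∈ F, Good (x γ) (φ β) n
  obtain ⟨x, hx⟩ := exists_rec (I := I) (X := C)
    (fun α x y => ∀ β δ Ξ F, β ≤ α → δ ≤ α → (∀ ξ ∈ Ξ, ξ ≤ α) → (∀ γ ∈ F, γ < α) →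
      Inf (A x β δ Ξ F) → Inf fun n => A x β δ Ξ F n ∧ Good y (φ β) n)
    (by
      intro α x x' hxx y hP β δ Ξ F h1 h2 h3 h4
      have : A x β δ Ξ F = A x' β δ Ξ F := by
        funext n
        simp only [A]
        congr 1
        exact propext (forall₂_congr fun γ hγ => by rw [hxx γ (h4 γ hγ)])
      rw [← this]
      exact hP β δ Ξ F h1 h2 h3 h4)
    (by
      intro α x
      let v : Finset (Iic α) → Finset I := fun E => E.map (Function.Embedding.subtype _)
      obtain ⟨y, hy⟩ := hB (Iic α × Iic α × Finset (Iic α) × Finset (Iic α))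
        (fun t => {y | Inf (A x t.1.1 t.2.1.1 (v t.2.2.1) (v t.2.2.2)) →
          Inf fun n => A x t.1.1 t.2.1.1 (v t.2.2.1) (v t.2.2.2) n ∧ Good y (φ t.1.1) n})
        (by
          simp only [mk_prod, lift_id]
          exact mul_lt_of_lt hκ.le (hI α) (mul_lt_of_lt hκ.le (hI α)
            (mul_lt_of_lt hκ.le (mk_finset_lt hκ (hI α)) (mk_finset_lt hκ (hI α)))))
        (by
          intro t
          by_cases h : Inf (A x t.1.1 t.2.1.1 (v t.2.2.1) (v t.2.2.2))
          · exact mem_of_superset (residual_good h fun n => (hφ1 t.1.1 n).le) fun y hy _ => hy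
          · exact mem_of_superset univ_mem fun y _ h' => absurd h' h)
      refine ⟨y, fun β δ Ξ F h1 h2 h3 h4 => ?_⟩
      have := hy (⟨β, h1⟩, ⟨δ, h2⟩, Ξ.subtype (· ∈ Iic α), F.subtype (· ∈ Iic α))
      have e1 : v (Ξ.subtype (· ∈ Iic α)) = Ξ := Finset.subtype_map_of_mem h3
      have e2 : v (F.subtype (· ∈ Iic α)) = F :=
        Finset.subtype_map_of_mem fun γ hγ => (h4 γ hγ).le
      simpa only [mem_ofPred_eq, e1, e2] using this)
  have h0 : ∀ α, Inf fun n => Good (x α) (φ α) n := by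
    intro α N
    obtain ⟨n, h1, -, h2⟩ := hx α α α ∅ ∅ le_rfl le_rfl (by simp) (by simp)
      (fun N => ⟨N, le_rfl, by simp [A]⟩) N
    exact ⟨n, h1, h2⟩
  refine ⟨x, fun α N => ?_, fun α N => ?_, fun h f f' => ?_⟩
  · obtain ⟨n, h1, h2⟩ := h0 α N
    exact ⟨φ α n, h1.trans (hφ1 α n).le, h2.2 _ le_rfl (hφ1 α _)⟩
  · obtain ⟨n, h1, h2⟩ := h0 α N
    exact ⟨n, h1, h2.1 _ le_rfl (hφ1 α _)⟩
  obtain ⟨β, hβ⟩ := hφ h
  choose r hr using fun γ => hφ fun n => max (f γ n) (f' (x γ) n)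
  choose nx hnx using fun a : I => hb (r '' Iic a) (mk_image_le.trans_lt (hI a))
  let s : ℕ → I := fun k => nx^[k] β
  have hbd : {i | ∀ k, s k < i}.Nonempty := by
    obtain ⟨i, hi⟩ := hb (range s) ((le_aleph0_iff_set_countable.2 (countable_range s)).trans_lt hκ)
    exact ⟨i, fun k => hi _ (mem_range_self k)⟩
  obtain ⟨δ, hδ1, hδ2⟩ := (wellFounded_lt (α := I)).has_min _ hbd
  have hβδ : β < δ := hδ1 0
  have hcl : ∀ γ, γ < δ → r γ < δ := by
    intro γ hγ
    have : ¬ ∀ k, s k < γ := fun h => hδ2 γ h hγ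
    obtain ⟨k, hk⟩ := not_forall.1 this
    have h1 := hnx (s k) (r γ) (mem_image_of_mem r (not_lt.1 hk))
    have h2 : s (k + 1) = nx (s k) := Function.iterate_succ_apply' nx k β
    exact (h1.trans_eq h2.symm).trans (hδ1 (k + 1))
  refine ⟨fun n => max (gd δ n) (φ β n), fun E N => ?_⟩
  let Ξ : Finset I := (E.filter (· < δ)).image r
  have hΞ : ∀ ξ ∈ Ξ, ξ ≤ δ := by
    intro ξ hξ
    obtain ⟨γ, hγ, rfl⟩ := Finset.mem_image.1 hξ
    exact (hcl γ (Finset.mem_filter.1 hγ).2).le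
  have key : ∀ F : Finset I, (∀ γ ∈ F, δ ≤ γ) → Inf (A x β δ Ξ F) := by
    intro F
    induction F using Finset.induction_on_max with
    | empty =>
      intro _ N
      obtain ⟨n, h1, h2⟩ := hgd δ (Ξ.subtype (· ∈ Iic δ)) N
      exact ⟨n, h1, fun ξ hξ => h2 ⟨ξ, hΞ ξ hξ⟩ (Finset.mem_subtype.2 hξ), by simp⟩
    | insert a F ha ih =>
      intro hF N
      have hδa := hF a (Finset.mem_insert_self a F)
      obtain ⟨n, h1, h2, h3⟩ := hx a β δ Ξ F (hβδ.le.trans hδa) hδa
        (fun ξ hξ => (hΞ ξ hξ).trans hδa) ha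
        (ih fun γ hγ => hF γ (Finset.mem_insert_of_mem hγ)) N
      refine ⟨n, h1, h2.1, fun γ hγ => ?_⟩
      rcases Finset.mem_insert.1 hγ with rfl | hγ
      · exact h3
      · exact h2.2 γ hγ
  obtain ⟨n, hn, h1, h2⟩ := key (E.filter (δ ≤ ·)) (fun γ hγ => (Finset.mem_filter.1 hγ).2) N
  refine ⟨n, hn, fun i hi => ?_⟩
  by_cases hiδ : i < δ
  · have h3 := h1 (r i) (Finset.mem_image_of_mem r (Finset.mem_filter.2 ⟨hi, hiδ⟩))
    have h4 := hr i n
    exact ⟨Or.inl (by beta_reduce; omega), Or.inl (by beta_reduce; omega)⟩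
  · obtain ⟨h3, h4⟩ := h2 i (Finset.mem_filter.2 ⟨hi, not_lt.1 hiδ⟩)
    have h5 := hφ1 β n
    exact ⟨Or.inr ⟨n, le_rfl, by beta_reduce; omega, h3.mono (hβ n)⟩,
      Or.inr ⟨φ β n, h5.le, le_max_right _ _, h4.mono (hβ _)⟩⟩

end Pool.Agent.MP_5f86f1_lc.Yes
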