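import Mathlib
import Pool.Agent.MP_5f86f1_lc.Yes.Reg

/-! The two positive cases: singular dominating number, and dominating number at most the covering
number of the meagre ideal. -/

namespace Pool.Agent.MP_5f86f1_lc.Yes

open Set Filter Topology Cardinal

theorem mk_Iic_toType_lt {κ : Cardinal.{0}} (hκ : ℵ₀ < κ) (i : κ.ord.ToType) :
    Cardinal.mk (Iic i) < κ := by
  have := mk_Iic_lt i (by simp) (by simpa using hκ.le)
  simpa using this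

theorem of_short {κ : Cardinal.{0}}
    (hκ : IsLeast {c : Cardinal.{0} | ∃ D : Set (ℕ → ℕ), Dom D ∧ Cardinal.mk D = c} κ)
    (J : Set κ.ord.ToType) (hJ : IsCofinal J) (hJκ : Cardinal.mk J < κ) :
    ∃ X : Set ℝ, Sch X ∧ ¬ Men (X ×ˢ X) := by
  obtain ⟨h0, hND⟩ := nd_of_isLeast hκ
  obtain ⟨D, hD, hDκ⟩ := hκ.1
  obtain ⟨φ, hφ, -⟩ := exists_phi (I := κ.ord.ToType) hD (by rw [mk_ord_toType, hDκ])
  obtain ⟨x, h1, h2, h3⟩ := sing h0 hND (mk_Iic_toType_lt h0) φ hφ J hJ hJκ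
  exact core x h1 h2 φ hφ h3

theorem of_singular {κ : Cardinal.{0}}
    (hκ : IsLeast {c : Cardinal.{0} | ∃ D : Set (ℕ → ℕ), Dom D ∧ Cardinal.mk D = c} κ)
    (hs : κ.IsSingular) : ∃ X : Set ℝ, Sch X ∧ ¬ Men (X ×ˢ X) := by
  obtain ⟨J, hJ, hJκ⟩ := Order.exists_cof_eq κ.ord.ToType
  refine of_short hκ J hJ ?_
  rw [hJκ, Ordinal.cof_toType]
  exact hs.cof_ord_lt

theorem of_cov
    (H : ∀ M : Set (Set C), (∀ A ∈ M, IsMeagre A) → ⋃₀ M = Set.univ →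
      ∃ D : Set (ℕ → ℕ), Dom D ∧ Cardinal.mk D ≤ Cardinal.mk M) :
    ∃ X : Set ℝ, Sch X ∧ ¬ Men (X ×ˢ X) := by
  obtain ⟨κ, hκ⟩ : ∃ κ, IsLeast {c : Cardinal.{0} | ∃ D : Set (ℕ → ℕ), Dom D ∧
      Cardinal.mk D = c} κ :=
    ⟨_, isLeast_csInf ⟨_, Set.univ, fun f => ⟨f, mem_univ f, Eventually.of_forall fun _ => le_rfl⟩,
      rfl⟩⟩
  by_cases hJ : ∃ J : Set κ.ord.ToType, IsCofinal J ∧ Cardinal.mk J < κ
  · obtain ⟨J, hJ, hJκ⟩ := hJ
    exact of_short hκ J hJ hJκ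
  obtain ⟨h0, hND⟩ := nd_of_isLeast hκ
  obtain ⟨D, hD, hDκ⟩ := hκ.1
  obtain ⟨φ, hφ, hφ1⟩ := exists_phi (I := κ.ord.ToType) hD (by rw [mk_ord_toType, hDκ])
  obtain ⟨x, h1, h2, h3⟩ := reg h0 hND (mk_Iic_toType_lt h0) φ hφ hφ1
    (by
      intro J hJκ
      by_contra hc
      refine hJ ⟨J, fun i => ?_, hJκ⟩
      by_contra hi
      exact hc ⟨i, fun j hj => not_le.1 fun h => hi ⟨j, hj, h⟩⟩)
    (by
      intro ι R hι hR
      by_contra hc
      obtain ⟨D', hD', hle⟩ := H (range fun i => (R i)ᶜ)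
        (by
          rintro _ ⟨i, rfl⟩
          simpa [IsMeagre] using hR i)
        (by
          refine eq_univ_of_forall fun y => ?_
          by_contra hy
          refine hc ⟨y, fun i => ?_⟩
          by_contra hi
          exact hy ⟨_, ⟨i, rfl⟩, hi⟩)
      exact ((hle.trans mk_range_le).trans_lt hι).not_ge (hκ.2 ⟨D', hD', rfl⟩))
  exact core x h1 h2 φ hφ h3

end Pool.Agent.MP_5f86f1_lc.Yes
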