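import Mathlib
import Pool.Agent.MP_5f86f1_lc.Yes.Final

/-! The case where the covering number and the cofinality of the null ideal equal the dominating
number. -/

namespace Pool.Agent.MP_5f86f1_lc.Yes

open Set Filter Topology Cardinal MeasureTheory

theorem sch_of_inc {Y : Type} [TopologicalSpace Y] [SecondCountableTopology Y] {T : Set Y}
    (hne : T.Nonempty)
    (H : ∀ O : ℕ → ℕ → Set Y, (∀ n k, IsOpen (O n k)) → (∀ n, Monotone (O n)) →
      (∀ n, T ⊆ ⋃ k, O n k) → ∃ g : ℕ → ℕ, ∀ G : Finset Y, (↑G : Set Y) ⊆ T →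
        ∃ n, (↑G : Set Y) ⊆ O n (g n)) : Sch T := by
  intro U hU
  have h1 : ∀ n, ∃ u : ℕ → Set Y, (∀ k, u k ∈ U n) ∧ T ⊆ ⋃ k, u k := by
    intro n
    obtain ⟨S, hS1, hS2, hS3⟩ := TopologicalSpace.isOpen_sUnion_countable (U n) (hU n).1
    have hne' : S.Nonempty := by
      obtain ⟨t, ht⟩ := hne
      have h0 : t ∈ ⋃₀ S := by rw [hS3]; exact (hU n).2 ht
      obtain ⟨s, hs, -⟩ := h0
      exact ⟨s, hs⟩
    obtain ⟨u, hu⟩ := hS1.exists_eq_range hne'
    refine ⟨u, fun k => hS2 (hu ▸ mem_range_self k), ?_⟩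
    rw [← sUnion_range, ← hu, hS3]
    exact (hU n).2
  choose u hu1 hu2 using h1
  obtain ⟨g, hg⟩ := H (fun n k => ⋃ j ∈ Iic k, u n j)
    (fun n k => isOpen_biUnion fun j _ => (hU n).1 _ (hu1 n j))
    (fun n a b hab => biUnion_subset_biUnion_left (Iic_subset_Iic.2 hab))
    (fun n z hz => by
      obtain ⟨k, hk⟩ := mem_iUnion.1 (hu2 n hz)
      exact mem_iUnion.2 ⟨k, mem_biUnion (mem_Iic.2 le_rfl) hk⟩)
  refine ⟨fun n => u n '' Iic (g n), fun n => ⟨?_, (finite_Iic _).image _⟩, fun G hG => ?_⟩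
  · rintro _ ⟨j, -, rfl⟩
    exact hu1 n j
  · obtain ⟨n, hn⟩ := hg G hG
    exact ⟨n, by rwa [sUnion_image]⟩

theorem not_men_of_inc {Y : Type} [TopologicalSpace Y] {X : Set Y} (W : ℕ → ℕ → Set Y)
    (hW : ∀ n k, IsOpen (W n k)) (hm : ∀ n, Monotone (W n)) (hc : ∀ n, X ⊆ ⋃ k, W n k)
    (H : ∀ g : ℕ → ℕ, ∃ p ∈ X, ∀ n, p ∉ W n (g n)) : ¬ Men X := by
  intro hM
  obtain ⟨F, hF, hcov⟩ := hM (fun n => range (W n)) (fun n => ⟨by
    rintro _ ⟨k, rfl⟩; exact hW n k, by rw [sUnion_range]; exact hc n⟩)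
  have h1 : ∀ n, ∃ k, ⋃₀ F n ⊆ W n k := by
    intro n
    have h2 : F n ⊆ W n '' Set.univ := by simpa using (hF n).1
    obtain ⟨S, -, hS2, hS3⟩ := Set.Finite.exists_subset_finite_image_eq (hF n).2 h2
    obtain ⟨k, hk⟩ := hS2.bddAbove
    refine ⟨k, ?_⟩
    rw [← hS3]
    rintro p ⟨_, ⟨j, hj, rfl⟩, hp⟩
    exact hm n (hk hj) hp
  choose g hg using h1
  obtain ⟨p, hp, h⟩ := H g
  obtain ⟨n, hn⟩ := mem_iUnion.1 (hcov hp)
  exact h n (hg n hn)

/-- A set that meets every null set in fewer than `κ` points is Scheepers. -/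
theorem sch_of_null {κ : Cardinal.{0}} (hND : ND κ) {T : Set ℝ} (hne : T.Nonempty)
    (hT : ∀ N : Set ℝ, volume N = 0 → Cardinal.mk ↥(T ∩ N) < κ) : Sch T := by
  classical
  refine sch_of_inc hne fun O hO hm hc => ?_
  let A : ℕ → ℕ → Set ℝ := fun n k => ((⋃ j, O n j) \ O n k) ∩ Icc (-(n : ℝ)) n
  have h1 : ∀ n, ∃ k, volume (A n k) ≤ (2⁻¹ : ENNReal) ^ n := by
    intro n
    have ht := tendsto_measure_iInter_atTop (μ := volume) (s := A n)
      (fun k => (((isOpen_iUnion (hO n)).measurableSet.diff (hO n k).measurableSet).inter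
        measurableSet_Icc).nullMeasurableSet)
      (fun a b hab => inter_subset_inter_left _ (sdiff_subset_sdiff_right (hm n hab)))
      ⟨0, ((measure_mono inter_subset_right).trans_lt measure_Icc_lt_top).ne⟩
    have he : ⋂ k, A n k = ∅ := by
      refine eq_empty_of_forall_notMem fun x hx => ?_
      obtain ⟨j, hj⟩ := mem_iUnion.1 (mem_iInter.1 hx 0).1.1
      exact (mem_iInter.1 hx j).1.2 hj
    rw [he, measure_empty] at ht
    have hp : (0 : ENNReal) < 2⁻¹ ^ n := ENNReal.pow_pos (by simp) n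
    exact (ht.eventually (ge_mem_nhds hp)).exists
  choose g0 hg0 using h1
  have h2 : ∀ᵐ x ∂(volume : Measure ℝ), ∀ᶠ n in atTop, x ∉ A n (g0 n) := by
    refine ae_eventually_notMem (ne_top_of_le_ne_top ?_ (ENNReal.tsum_le_tsum hg0))
    rw [ENNReal.tsum_geometric]
    simp
  rw [ae_iff] at h2
  have h3 : ∀ (t : ℝ) n, ∃ k, t ∈ T → t ∈ O n k := by
    intro t n
    by_cases ht : t ∈ T
    · obtain ⟨k, hk⟩ := mem_iUnion.1 (hc n ht)
      exact ⟨k, fun _ => hk⟩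
    · exact ⟨0, fun h => absurd h ht⟩
  choose f hf using h3
  obtain ⟨g1, hg1⟩ := hND _ (fun t : ↥(T ∩ {x | ¬ ∀ᶠ n in atTop, x ∉ A n (g0 n)}) => f t.1)
    (hT _ h2)
  refine ⟨fun n => max (g0 n) (g1 n), fun G hG => ?_⟩
  have h4 : ∀ᶠ n : ℕ in atTop, ∀ x ∈ G, (∀ᶠ n in atTop, x ∉ A n (g0 n)) → x ∈ O n (g0 n) := by
    refine (Filter.eventually_all_finset G).2 fun x hx => ?_
    by_cases h : ∀ᶠ n in atTop, x ∉ A n (g0 n)
    · filter_upwards [h, tendsto_natCast_atTop_atTop.eventually_ge_atTop |x|] with n h5 h6 _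
      by_contra h7
      exact h5 ⟨⟨hc n (hG hx), h7⟩, abs_le.1 h6⟩
    · exact Eventually.of_forall fun n h' => absurd h' h
  obtain ⟨N, hN⟩ := eventually_atTop.1 h4
  obtain ⟨n, hn, h5⟩ := hg1 (G.subtype _) N
  refine ⟨n, fun x hx => ?_⟩
  by_cases h : ∀ᶠ n in atTop, x ∉ A n (g0 n)
  · exact hm n (le_max_left _ _) (hN n hn x hx h)
  · exact hm n ((h5 ⟨x, hG hx, h⟩ (Finset.mem_subtype.2 hx)).trans (le_max_right _ _))
      (hf x n (hG hx))

theorem countable_fin : {c : C | ∃ m, ∀ j, m ≤ j → c j = false}.Countable := by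
  classical
  refine (countable_range fun F : Finset ℕ => (fun j => decide (j ∈ F) : C)).mono ?_
  rintro c ⟨m, hm⟩
  refine ⟨(Finset.range m).filter fun j => c j = true, funext fun j => ?_⟩
  by_cases hj : j < m
  · cases h : c j <;> simp [h, hj]
  · simp [hj, hm j (not_lt.1 hj)]

theorem of_null
    (H1 : ∀ M : Set (Set ℝ), (∀ A ∈ M, volume A = 0) → ⋃₀ M = Set.univ →
      ∃ D : Set (ℕ → ℕ), Dom D ∧ Cardinal.mk D ≤ Cardinal.mk M)
    (H2 : ∀ D : Set (ℕ → ℕ), Dom D → ∃ B : Set (Set ℝ), (∀ A ∈ B, volume A = 0) ∧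
      (∀ N : Set ℝ, volume N = 0 → ∃ A ∈ B, N ⊆ A) ∧ Cardinal.mk B ≤ Cardinal.mk D) :
    ∃ X : Set ℝ, Sch X ∧ ¬ Men (X ×ˢ X) := by
  classical
  obtain ⟨κ, hκ⟩ : ∃ κ, IsLeast {c : Cardinal.{0} | ∃ D : Set (ℕ → ℕ), Dom D ∧
      Cardinal.mk D = c} κ :=
    ⟨_, isLeast_csInf ⟨_, Set.univ,
      fun f => ⟨f, mem_univ f, Eventually.of_forall fun _ => le_rfl⟩, rfl⟩⟩
  obtain ⟨h0, hND⟩ := nd_of_isLeast hκ
  obtain ⟨D, hD, hDκ⟩ := hκ.1
  obtain ⟨φ, hφ, -⟩ := exists_phi (I := κ.ord.ToType) hD (by rw [mk_ord_toType, hDκ])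
  obtain ⟨B, hB1, hB2, hB3⟩ := H2 D hD
  obtain ⟨N, hN1, hN2⟩ : ∃ N : κ.ord.ToType → Set ℝ, (∀ i, volume (N i) = 0) ∧
      ∀ A : Set ℝ, volume A = 0 → ∃ i, A ⊆ N i := by
    obtain ⟨ι⟩ : Nonempty (B ↪ κ.ord.ToType) := by
      rw [← Cardinal.le_def, mk_ord_toType, ← hDκ]; exact hB3
    obtain ⟨A0, hA0, -⟩ := hB2 ∅ measure_empty
    have : Nonempty B := ⟨⟨A0, hA0⟩⟩
    refine ⟨fun i => (Function.invFun ι i).1, fun i => hB1 _ (Function.invFun ι i).2,
      fun A hA => ?_⟩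
    obtain ⟨A', h1, h2⟩ := hB2 A hA
    refine ⟨ι ⟨A', h1⟩, ?_⟩
    simp only [Function.leftInverse_invFun ι.injective ⟨A', h1⟩]
    exact h2
  obtain ⟨e, he1, he2, he3⟩ :=
    (isClosed_Icc (a := (1 : ℝ)) (b := 2)).exists_nat_bool_injection_of_not_countable (by
      intro h
      have := h.measure_zero volume
      simp at this)
  choose d hd1 hd2 hd3 using fun i : κ.ord.ToType =>
    exists_sparse (x := fun _ => true) (fun N => ⟨N, le_rfl, rfl⟩) (φ i)
  let Q : Set ℝ := e '' {c : C | ∃ m, ∀ j, m ≤ j → c j = false}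
  have hQ : Q.Countable := countable_fin.image e
  let r : κ.ord.ToType → Bool → ℝ := fun i b => if b then e (d i) else 0
  obtain ⟨s, hs⟩ := exists_rec (I := κ.ord.ToType) (X := ℝ)
    (fun α s y => ∀ b, (∀ β, β ≤ α → y + r α b ∉ N β) ∧ ∀ γ, γ < α → ∀ b',
      y + r α b - (s γ + r γ b') ∉ Q ∧ s γ + r γ b' - (y + r α b) ∉ Q)
    (by
      intro α x x' hxx y hP b
      exact ⟨(hP b).1, fun γ hγ b' => by rw [← hxx γ hγ]; exact (hP b).2 γ hγ b'⟩)
    (by
      intro α x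
      let R : Iic α → Set ℝ := fun β => ⋃ b, ((fun y => y + r α b) ⁻¹' N β.1 ∪
        ⋃ b', ((fun y => y + r α b - (x β.1 + r β.1 b')) ⁻¹' Q ∪
          (fun y => x β.1 + r β.1 b' - (y + r α b)) ⁻¹' Q))
      have hR : ∀ β, volume (R β) = 0 := by
        intro β
        refine measure_iUnion_null fun b => measure_union_null ?_ (measure_iUnion_null fun b' =>
          measure_union_null ?_ ?_)
        · rw [measure_preimage_add_right]; exact hN1 _
        · exact (hQ.preimage_of_injOn fun u _ v _ h => by linarith).measure_zero _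
        · exact (hQ.preimage_of_injOn fun u _ v _ h => by linarith).measure_zero _
      by_contra hc
      obtain ⟨D', hD', hle⟩ := H1 (range R) (by rintro _ ⟨β, rfl⟩; exact hR β) (by
        refine eq_univ_of_forall fun y => ?_
        by_contra hy
        rw [sUnion_range] at hy
        simp only [R, mem_iUnion, mem_union, mem_preimage, not_exists, not_or] at hy
        exact hc ⟨y, fun b => ⟨fun β hβ => (hy ⟨β, hβ⟩ b).1,
          fun γ hγ b' => (hy ⟨γ, hγ.le⟩ b).2 b'⟩⟩)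
      exact ((hle.trans mk_range_le).trans_lt (mk_Iic_toType_lt h0 α)).not_ge
        (hκ.2 ⟨D', hD', rfl⟩))
  let pt : κ.ord.ToType × Bool → ℝ := fun p => s p.1 + r p.1 p.2
  obtain ⟨i0, -⟩ := hφ fun _ => 0
  refine ⟨range pt, sch_of_null hND ⟨_, mem_range_self (i0, true)⟩ fun A hA => ?_, ?_⟩
  · obtain ⟨β, hβ⟩ := hN2 A hA
    have h1 : range pt ∩ A ⊆ range fun p : Iic β × Bool => pt (p.1.1, p.2) := by
      rintro _ ⟨⟨⟨α, b⟩, rfl⟩, h⟩
      have : α ≤ β := by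
        by_contra hc
        exact (hs α b).1 β (not_le.1 hc).le (hβ h)
      exact ⟨(⟨α, this⟩, b), rfl⟩
    refine ((mk_le_mk_of_subset h1).trans mk_range_le).trans_lt ?_
    rw [mk_prod, lift_id, lift_id]
    exact mul_lt_of_lt h0.le (mk_Iic_toType_lt h0 β) (mk_le_aleph0.trans_lt h0)
  · refine not_men_of_inc (fun n k => {p : ℝ × ℝ | p.2 - p.1 ∉ e '' {c | ¬ Many c n k}})
      (fun n k => ?_) (fun n a b hab p hp h => hp ?_) (fun n => ?_) (fun g => ?_)
    · have hcl : IsClosed (e '' {c | ¬ Many c n k}) :=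
        ((isOpen_many n k).isClosed_compl.isCompact.image he2).isClosed
      exact hcl.isOpen_compl.preimage (continuous_snd.sub continuous_fst)
    · obtain ⟨c, hc, h⟩ := h
      exact ⟨c, fun h' => hc (Many.mono h' hab), h⟩
    · rintro ⟨_, _⟩ ⟨⟨⟨γ, b'⟩, rfl⟩, ⟨⟨α, b⟩, rfl⟩⟩
      have hnQ : pt (α, b) - pt (γ, b') ∉ Q := by
        rcases lt_trichotomy γ α with h | rfl | h
        · exact ((hs α b).2 γ h b').1
        · rintro ⟨c, ⟨m, hm⟩, hc⟩
          have h1 := he1 (mem_range_self c)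
          have h2 := he1 (mem_range_self (d γ))
          simp only [pt, r] at hc
          cases b <;> cases b' <;> simp at hc
          · linarith [h1.1]
          · linarith [h1.1, h2.1]
          · obtain ⟨j, h3, h4⟩ := hd2 γ m
            rw [← he3 hc, hm j h3] at h4
            exact absurd h4 (by simp)
          · linarith [h1.1]
        · exact ((hs γ b').2 α h b).2
      by_cases h : pt (α, b) - pt (γ, b') ∈ range e
      · obtain ⟨c, hc⟩ := h
        obtain ⟨k, hk⟩ := many_of_inf (y := c) (fun M => by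
          by_contra h1
          refine hnQ ⟨c, ⟨M, fun j hj => ?_⟩, hc⟩
          by_contra h2
          exact h1 ⟨j, hj, by simpa using h2⟩) n
        refine mem_iUnion.2 ⟨k, ?_⟩
        rintro ⟨c', h1, h2⟩
        exact h1 (he3 (h2.trans hc.symm) ▸ hk)
      · exact mem_iUnion.2 ⟨0, fun h' => h (image_subset_range _ _ h')⟩
    · obtain ⟨i, hi⟩ := hφ g
      refine ⟨(pt (i, false), pt (i, true)), ⟨mem_range_self _, mem_range_self _⟩,
        fun n h => h ⟨d i, fun h' => hd3 i n (h'.mono (hi n)), by simp [pt, r]⟩⟩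

end Pool.Agent.MP_5f86f1_lc.Yes
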